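import Pool.Agent.H76.KN.V4

/-! # V5: degree of the divisor of poles (helper76), for MP_f2954d_ag -/

set_option autoImplicit false
set_option linter.overlappingInstances false

namespace Pool.Agent.H76.KN

open SC IsDedekindDomain WithZero

section gen

variable {k B K : Type} [Field k] [CommRing B] [IsDomain B] [IsDedekindDomain B] [Field K]
  [Algebra B K] [IsFractionRing B K] [Algebra k B] [Algebra k K] [IsScalarTower k B K]
  (P : HeightOneSpectrum B)

theorem adic_le_iff (a : B) (n : ℕ) (ha : a ≠ 0) :
    (n : ℤ) ≤ (adic k B K P).ord (algebraMap B K a) ↔ a ∈ P.asIdeal ^ n := by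
  have hv : P.valuation K (algebraMap B K a) ≠ 0 := by simpa using ha
  rw [adic_ord, le_neg, log_le_iff_le_exp hv, P.valuation_of_algebraMap,
    P.intValuation_le_pow_iff_mem]

theorem adic_nonneg (a : B) : 0 ≤ (adic k B K P).ord (algebraMap B K a) := by
  by_cases ha : a = 0
  · rw [ha, map_zero, (adic k B K P).ord_zero]
  · have := (adic_le_iff (k := k) (K := K) P a 0 ha).2 (by simp)
    simpa using this

theorem adic_pos_iff (a : B) : a ∈ P.asIdeal ↔ a = 0 ∨ 0 < (adic k B K P).ord (algebraMap B K a) := by
  by_cases ha : a = 0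
  · simp [ha]
  · have := adic_le_iff (k := k) (K := K) P a 1 ha
    rw [pow_one] at this
    rw [← this]
    simp only [ha, false_or]
    push_cast
    omega

theorem adic_red_surj (y : (adic k B K P).Res) : ∃ a : B, (adic k B K P).red (algebraMap B K a) = y := by
  obtain ⟨x, hx, rfl⟩ := red_surj _ y
  have hx1 : P.valuation K x ≤ 1 := by
    by_cases h0 : P.valuation K x = 0
    · rw [h0]; exact zero_le_one
    · rw [adic_ord, le_neg, neg_zero, log_le_iff_le_exp h0, exp_zero] at hx
      exact hx
  obtain ⟨a, ha⟩ := P.exists_valuation_sub_lt_of_integer hx1 1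
  refine ⟨a, ?_⟩
  have ha0 := adic_nonneg (k := k) (K := K) P a
  rw [← sub_eq_zero, ← red_sub _ ha0 hx, red_eq_zero _ (ord_sub_nonneg _ ha0 hx)]
  by_cases h0 : algebraMap B K a - x = 0
  · exact Or.inl h0
  · right
    have hv : P.valuation K (algebraMap B K a - x) ≠ 0 := by simpa using h0
    rw [adic_ord, neg_pos, log_lt_iff_lt_exp hv, exp_zero]
    simpa using ha

/-- reduction on `B` -/
noncomputable def redB : B →+* (adic k B K P).Res :=
  (IsLocalRing.residue (adic k B K P).vs).comp (toVs (adic k B K P) (adic_nonneg P))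

theorem redB_apply (b : B) : redB (k := k) (K := K) P b = (adic k B K P).red (algebraMap B K b) := by
  rw [red_of_nonneg _ (adic_nonneg P b)]
  rfl

theorem redB_surj : Function.Surjective (redB (k := k) (K := K) P) := by
  intro y
  obtain ⟨a, ha⟩ := adic_red_surj P y
  exact ⟨a, by rw [redB_apply, ha]⟩

theorem redB_ker : RingHom.ker (redB (k := k) (K := K) P) = P.asIdeal := by
  ext b
  rw [RingHom.mem_ker, redB_apply, red_eq_zero _ (adic_nonneg P b), adic_pos_iff (k := k) (K := K) P b]
  simp

/-- the residue field is a quotient of `B` -/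
noncomputable def quotRes : (B ⧸ P.asIdeal) ≃+* (adic k B K P).Res :=
  (Ideal.quotEquivOfEq (redB_ker (k := k) (K := K) P).symm).trans
    (RingHom.quotientKerEquivOfSurjective (redB_surj (k := k) (K := K) P))

theorem quotRes_mk (b : B) : quotRes (k := k) (K := K) P (Ideal.Quotient.mk _ b) =
    (adic k B K P).red (algebraMap B K b) := by
  rw [← redB_apply]
  rfl

variable {R : Type} [CommRing R] [IsDomain R] [Algebra R B] [Algebra R K] [IsScalarTower R B K]
  [Algebra k R] [IsScalarTower k R B] [Module.IsTorsionFree R B]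
  (p : Ideal R) [p.IsMaximal]

omit [IsDomain R] [Algebra R K] [IsScalarTower R B K] [Module.IsTorsionFree R B] in
theorem deg_eq (hk : Function.Surjective (algebraMap k (R ⧸ p))) [P.asIdeal.LiesOver p] :
    (adic k B K P).deg = P.asIdeal.inertiaDeg R := by
  have hPm : P.asIdeal.IsMaximal := P.isPrime.isMaximal P.ne_bot
  rw [Ideal.inertiaDeg_eq_of_isMaximal p P.asIdeal]
  unfold DV.deg
  have hki : Function.Injective (algebraMap k (R ⧸ p)) := by
    have : Nontrivial (R ⧸ p) := Ideal.Quotient.nontrivial_iff.2 (Ideal.IsMaximal.ne_top inferInstance)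
    exact (algebraMap k (R ⧸ p)).injective
  apply Algebra.finrank_eq_of_equiv_equiv (RingEquiv.ofBijective (algebraMap k (R ⧸ p)) ⟨hki, hk⟩)
    (quotRes (k := k) (K := K) P).symm
  ext c
  simp only [RingHom.comp_apply, RingEquiv.toRingHom_eq_coe, RingHom.coe_coe,
    RingEquiv.ofBijective_apply]
  rw [RingEquiv.eq_symm_apply]
  have h1 : algebraMap k (R ⧸ p) c = Ideal.Quotient.mk p (algebraMap k R c) := rfl
  rw [h1, Ideal.Quotient.algebraMap_mk_of_liesOver, quotRes_mk, ← IsScalarTower.algebraMap_apply k R B,
    ← IsScalarTower.algebraMap_apply k B K, red_algebraMap]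

omit [Algebra k R] [IsScalarTower k R B] [p.IsMaximal] in
theorem ram_eq (x : R) (hx : x ≠ 0) (hp : p = Ideal.span {x}) [P.asIdeal.LiesOver p] :
    (adic k B K P).ord (algebraMap R K x) = P.asIdeal.ramificationIdx R := by
  have hPp := P.isPrime
  have hxB : algebraMap R B x ≠ 0 := by
    intro h
    exact hx ((FaithfulSMul.algebraMap_injective R B) (by rw [h, map_zero]))
  have hmap : p.map (algebraMap R B) = Ideal.span {algebraMap R B x} := by
    rw [hp, Ideal.map_span, Set.image_singleton]
  have hne : p.map (algebraMap R B) ≠ ⊥ := by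
    rw [hmap, Ne, Ideal.span_singleton_eq_bot]; exact hxB
  rw [Ideal.IsDedekindDomain.ramificationIdx_eq_multiplicity p P.asIdeal hne, hmap,
    IsScalarTower.algebraMap_apply R B K]
  obtain ⟨N, hN⟩ := Int.eq_ofNat_of_zero_le (adic_nonneg (k := k) (K := K) P (algebraMap R B x))
  rw [hN]
  congr 1
  symm
  apply multiplicity_eq_of_dvd_of_not_dvd
  · rw [Ideal.dvd_span_singleton, ← adic_le_iff (k := k) (K := K) P _ N hxB, hN]
  · rw [Ideal.dvd_span_singleton, ← adic_le_iff (k := k) (K := K) P _ (N + 1) hxB, hN]
    push_cast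
    omega

end gen

section sum

variable {k R B F K : Type} [Field k] [CommRing R] [IsDomain R] [CommRing B] [IsDomain B]
  [IsDedekindDomain B] [Field F] [Field K] [Algebra R F] [IsFractionRing R F] [Algebra R B]
  [Algebra R K] [Algebra B K] [IsScalarTower R B K] [IsFractionRing B K] [Algebra k R]
  [Algebra k B] [Algebra k K] [IsScalarTower k R B] [IsScalarTower k B K] [Algebra F K]
  [IsScalarTower R F K] [Module.Finite R B] [Module.IsTorsionFree R B]

omit [IsDomain R] [Algebra k R] in
theorem int_nonneg (v : DV k K) (hR : ∀ r : R, 0 ≤ v.ord (algebraMap R K r)) (x : K)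
    (hx : IsIntegral R x) : 0 ≤ v.ord x := by
  let f : R →+* v.vs :=
    { toFun := fun r => ⟨algebraMap R K r, hR r⟩
      map_one' := by ext; simp
      map_mul' := by intro a b; ext; simp
      map_zero' := by ext; simp
      map_add' := by intro a b; ext; simp }
  have hf : (algebraMap v.vs K).comp f = algebraMap R K := by
    ext r; rfl
  obtain ⟨g, hg, hg0⟩ := hx
  have h1 : IsIntegral v.vs x := by
    refine ⟨g.map f, hg.map f, ?_⟩
    rw [Polynomial.eval₂_map, hf]
    exact hg0
  obtain ⟨y, hy⟩ := (IsIntegrallyClosed.isIntegral_iff (R := v.vs) (K := K)).1 h1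
  rw [← hy]
  exact y.2

variable (k B F K) in
include B in
theorem gen_sum [IsPrincipalIdealRing R] (x : R) (hx : x ≠ 0) (p : Ideal R) [p.IsMaximal] (hp : p = Ideal.span {x})
    (hk : Function.Surjective (algebraMap k (R ⧸ p)))
    (hR : ∀ v : DV k K, 0 < v.ord (algebraMap R K x) → ∀ r : R, 0 ≤ v.ord (algebraMap R K r)) :
    {v : DV k K | 0 < v.ord (algebraMap R K x)}.Finite ∧
    (∀ v : DV k K, 0 < v.ord (algebraMap R K x) → Module.Finite k v.Res) ∧
    ∑ᶠ v : DV k K, (v.deg : ℤ) * max 0 (v.ord (algebraMap R K x)) = Module.finrank F K := by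
  have hfin : (p.primesOver B).Finite := Algebra.QuasiFinite.finite_primesOver p
  have hft : Fintype (p.primesOver B) := hfin.fintype
  have hpb : p ≠ ⊥ := by
    rw [hp, Ne, Ideal.span_singleton_eq_bot]; exact hx
  have hq : ∀ q : p.primesOver B, q.1 ≠ ⊥ := by
    intro q hq
    have h1 := q.2.2.over
    rw [hq] at h1
    apply hpb
    rw [h1, Ideal.under_bot]
  let H : p.primesOver B → HeightOneSpectrum B := fun q => ⟨q.1, q.2.1, hq q⟩
  let φ : p.primesOver B → DV k K := fun q => adic k B K (H q)
  have hφord : ∀ q, (φ q).ord (algebraMap R K x) = (q.1.ramificationIdx R : ℤ) := by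
    intro q
    have : (H q).asIdeal.LiesOver p := q.2.2
    exact ram_eq (k := k) (K := K) (H q) p x hx hp
  have hφdeg : ∀ q, (φ q).deg = q.1.inertiaDeg R := by
    intro q
    have : (H q).asIdeal.LiesOver p := q.2.2
    exact deg_eq (k := k) (K := K) (H q) p hk
  have hφpos : ∀ q, 0 < (φ q).ord (algebraMap R K x) := by
    intro q
    have h1 := (adic_pos_iff (k := k) (K := K) (H q) (algebraMap R B x)).1 (by
      have h2 := q.2.2.over
      have h3 : x ∈ p := by rw [hp]; exact Ideal.mem_span_singleton_self x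
      rw [h2] at h3
      exact h3)
    rw [← IsScalarTower.algebraMap_apply R B K] at h1
    rcases h1 with h1 | h1
    · exact absurd ((FaithfulSMul.algebraMap_injective R B) (by rw [h1, map_zero])) hx
    · exact h1
  have hφinj : Function.Injective φ := by
    intro q q' h
    apply Subtype.ext
    ext a
    change a ∈ (H q).asIdeal ↔ a ∈ (H q').asIdeal
    rw [adic_pos_iff (k := k) (K := K) (H q), adic_pos_iff (k := k) (K := K) (H q')]
    change a = 0 ∨ 0 < (φ q).ord _ ↔ a = 0 ∨ 0 < (φ q').ord _
    rw [h]
  have hφsurj : ∀ v : DV k K, 0 < v.ord (algebraMap R K x) → ∃ q, φ q = v := by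
    intro v hv
    have hB : ∀ b : B, 0 ≤ v.ord (algebraMap B K b) := by
      intro b
      apply int_nonneg v (hR v hv)
      exact (Algebra.IsIntegral.isIntegral (R := R) b).map (IsScalarTower.toAlgHom R B K)
    have hcp := center_prime v hB
    have hcm : (center v hB).under R = p := by
      symm
      apply Ideal.IsMaximal.eq_of_le inferInstance (Ideal.IsPrime.ne_top inferInstance)
      rw [hp, Ideal.span_le, Set.singleton_subset_iff]
      change algebraMap R B x ∈ center v hB
      rw [mem_center]
      right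
      rw [← IsScalarTower.algebraMap_apply R B K]
      exact hv
    refine ⟨⟨center v hB, hcp, ⟨hcm.symm⟩⟩, ?_⟩
    apply DV.ext
    funext y
    rw [ord_eq_of_center v hB (H ⟨center v hB, hcp, ⟨hcm.symm⟩⟩) ?_ y]
    · rfl
    · intro a ha
      change a ∉ center v hB at ha
      rw [mem_center] at ha
      push Not at ha
      exact le_antisymm ha.2 (hB a)
  have hset : {v : DV k K | 0 < v.ord (algebraMap R K x)} = Set.range φ := by
    ext v
    constructor
    · intro hv; exact hφsurj v hv
    · rintro ⟨q, rfl⟩; exact hφpos q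
  refine ⟨?_, ?_, ?_⟩
  · rw [hset]; exact Set.finite_range φ
  · intro v hv
    obtain ⟨q, rfl⟩ := hφsurj v hv
    apply Module.finite_of_finrank_pos
    have h1 := hφdeg q
    unfold DV.deg at h1
    rw [h1]
    exact Ideal.inertiaDeg_pos q.1 R
  · have hfree : Module.Free R B := Module.free_of_finite_type_torsion_free'
    have hflat : Module.Flat R B := inferInstance
    have h1 := Ideal.sum_ramification_inertia_eq_finrank p B
    have h2 : ∑ᶠ v : DV k K, (v.deg : ℤ) * max 0 (v.ord (algebraMap R K x)) =
        ∑ᶠ v ∈ Set.range φ, (v.deg : ℤ) * max 0 (v.ord (algebraMap R K x)) := by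
      rw [← hset]
      apply finsum_congr
      intro v
      by_cases hv : 0 < v.ord (algebraMap R K x)
      · simp [hv]
      · have : max 0 (v.ord (algebraMap R K x)) = 0 := max_eq_left (not_lt.1 hv)
        simp [this]
    rw [h2, finsum_mem_range hφinj, finsum_eq_sum_of_fintype, IsFractionRing.finrank_eq R F B K,
      ← h1]
    push_cast
    apply Finset.sum_congr rfl
    intro q _
    rw [max_eq_right (hφpos q).le, hφord, hφdeg, mul_comm]

end sum

open Polynomial in
theorem v5 : T_V5 := by
  intro k K _ _ _ _ t ht hfd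
  obtain ⟨s, hs⟩ : ∃ s, s = t⁻¹ := ⟨_, rfl⟩
  have hst : Transcendental k s := by
    rw [hs]
    intro h
    exact ht (by simpa using h.inv)
  obtain ⟨F, hF⟩ : ∃ F, F = IntermediateField.adjoin k {t} := ⟨_, rfl⟩
  have hsF : s ∈ F := by
    rw [hF, hs]
    exact inv_mem (IntermediateField.mem_adjoin_simple_self k t)
  have hFs : F = IntermediateField.adjoin k {s} := by
    apply le_antisymm
    · rw [hF, IntermediateField.adjoin_le_iff, Set.singleton_subset_iff]
      have h1 : t = s⁻¹ := by rw [hs, inv_inv]
      rw [h1]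
      exact inv_mem (IntermediateField.mem_adjoin_simple_self k s)
    · rw [IntermediateField.adjoin_le_iff, Set.singleton_subset_iff]
      exact hsF
  rw [← hF] at hfd ⊢
  let _ : Algebra k[X] K := (aeval (R := k) s).toAlgebra
  let _ : Algebra k[X] F := (aeval (R := k) (⟨s, hsF⟩ : F)).toAlgebra
  have hK : ∀ f : k[X], algebraMap k[X] K f = aeval s f := fun f => rfl
  have hFm : ∀ f : k[X], algebraMap k[X] F f = aeval (⟨s, hsF⟩ : F) f := fun f => rfl
  have hcoe : ∀ f : k[X], ((aeval (⟨s, hsF⟩ : F) f : F) : K) = aeval s f := by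
    intro f
    exact (aeval_algHom_apply (F.val) (⟨s, hsF⟩ : F) f).symm
  have _ : IsScalarTower k k[X] K := IsScalarTower.of_algebraMap_eq (by intro c; simp [hK])
  have _ : IsScalarTower k[X] F K := IsScalarTower.of_algebraMap_eq (by
    intro f
    rw [hK, hFm]
    exact (hcoe f).symm)
  have hinjK : Function.Injective (algebraMap k[X] K) := by
    rw [transcendental_iff_injective] at hst
    exact hst
  have _ : FaithfulSMul k[X] F := (faithfulSMul_iff_algebraMap_injective _ _).2 (by
    intro a b hab
    apply hinjK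
    rw [hK, hK, ← hcoe, ← hcoe]
    rw [hFm, hFm] at hab
    rw [hab])
  have _ : FaithfulSMul k[X] K := (faithfulSMul_iff_algebraMap_injective _ _).2 hinjK
  have _ : IsFractionRing k[X] F := IsFractionRing.of_field k[X] F (by
    intro z
    have hz : (z : K) ∈ IntermediateField.adjoin k {s} := hFs ▸ z.2
    rw [IntermediateField.mem_adjoin_simple_iff] at hz
    obtain ⟨r, q, hrq⟩ := hz
    refine ⟨r, q, ?_⟩
    apply Subtype.ext
    rw [hrq, hFm, hFm, ← hcoe, ← hcoe]
    rfl)
  have _ : CharZero F := charZero_of_injective_algebraMap (algebraMap k F).injective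
  have _ : Algebra.IsSeparable F K := inferInstance
  obtain ⟨B, hB⟩ : ∃ B, B = integralClosure k[X] K := ⟨_, rfl⟩
  have _ : IsDedekindDomain B := hB ▸ integralClosure.isDedekindDomain k[X] F K
  have _ : IsFractionRing B K := hB ▸ integralClosure.isFractionRing_of_finite_extension F K
  have _ : Module.Finite k[X] B := hB ▸ IsIntegralClosure.finite k[X] F K (integralClosure k[X] K)
  have _ : Module.IsTorsionFree k[X] B := inferInstance
  have hmax : (Ideal.span {(X : k[X])}).IsMaximal :=
    PrincipalIdealRing.isMaximal_of_irreducible irreducible_X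
  have hsurj : Function.Surjective (algebraMap k (k[X] ⧸ Ideal.span {(X : k[X])})) := by
    intro y
    obtain ⟨f, rfl⟩ := Ideal.Quotient.mk_surjective y
    refine ⟨f.coeff 0, ?_⟩
    change Ideal.Quotient.mk _ (C (f.coeff 0)) = _
    rw [Ideal.Quotient.eq, Ideal.mem_span_singleton, X_dvd_iff]
    simp
  have hord : ∀ v : DV k K, v.ord (algebraMap k[X] K X) = - v.ord t := by
    intro v
    rw [hK, aeval_X, hs, v.ord_inv]
  have hR : ∀ v : DV k K, 0 < v.ord (algebraMap k[X] K X) → ∀ r : k[X],
      0 ≤ v.ord (algebraMap k[X] K r) := by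
    intro v hv f
    rw [hK, aeval_X] at hv
    rw [hK, aeval_eq_sum_range]
    change _ ∈ v.vs
    apply sum_mem
    intro i _
    rw [Algebra.smul_def]
    apply mul_mem
    · rw [v.mem_vs, v.ord_base]
    · apply pow_mem
      rw [v.mem_vs]
      exact hv.le
  have hmain := gen_sum k B F K (X : k[X]) X_ne_zero (Ideal.span {(X : k[X])}) rfl hsurj hR
  simp only [hord, Left.neg_pos_iff] at hmain
  exact hmain

end Pool.Agent.H76.KN
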