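import Pool.Agent.H93.SC.Targets

/-! # V4, V4u: places of Dedekind domains (helper76), for MP_f2954d_ag -/

set_option autoImplicit false

namespace Pool.Agent.H76.KN

open SC

section api

variable {k K : Type} [Field k] [Field K] [Algebra k K] (v : DV k K)

theorem red_of_nonneg {x : K} (h : 0 ≤ v.ord x) : v.red x = IsLocalRing.residue v.vs ⟨x, h⟩ := by
  unfold DV.red
  rw [dif_pos h]

theorem isUnit_vs {x : K} (h : 0 ≤ v.ord x) :
    IsUnit (⟨x, h⟩ : v.vs) ↔ x ≠ 0 ∧ v.ord x = 0 := by
  constructor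
  · rintro hu
    obtain ⟨y, hy⟩ := isUnit_iff_exists_inv.1 hu
    have hy' : x * (y : K) = 1 := by
      have := congrArg (Subtype.val) hy
      simpa using this
    have hx : x ≠ 0 := left_ne_zero_of_mul_eq_one hy'
    have hy0 : (y : K) ≠ 0 := right_ne_zero_of_mul_eq_one hy'
    have h1 := v.ord_mul x y hx hy0
    rw [hy', v.ord_one] at h1
    have h2 : 0 ≤ v.ord (y : K) := y.2
    exact ⟨hx, by omega⟩
  · rintro ⟨hx, h0⟩
    rw [isUnit_iff_exists_inv]
    have hinv : 0 ≤ v.ord x⁻¹ := by rw [v.ord_inv, h0]; simp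
    refine ⟨⟨x⁻¹, hinv⟩, ?_⟩
    ext
    simp [hx]

theorem red_eq_zero {x : K} (h : 0 ≤ v.ord x) : v.red x = 0 ↔ x = 0 ∨ 0 < v.ord x := by
  rw [red_of_nonneg v h, IsLocalRing.residue_eq_zero_iff, IsLocalRing.mem_maximalIdeal,
    mem_nonunits_iff, isUnit_vs v h]
  by_cases hx : x = 0
  · simp [hx]
  · simp only [ne_eq, hx, not_false_iff, true_and, false_or]
    constructor
    · intro h'; exact lt_of_le_of_ne h (Ne.symm h')
    · intro h'; exact h'.ne'

theorem red_surj (y : v.Res) : ∃ x : K, 0 ≤ v.ord x ∧ v.red x = y := by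
  obtain ⟨x, rfl⟩ := IsLocalRing.residue_surjective y
  exact ⟨x, x.2, red_of_nonneg v x.2⟩

theorem ord_sub_nonneg {x y : K} (hx : 0 ≤ v.ord x) (hy : 0 ≤ v.ord y) : 0 ≤ v.ord (x - y) := by
  have := (v.vs).sub_mem (x := x) (y := y) hx hy
  exact this

theorem ord_add_nonneg {x y : K} (hx : 0 ≤ v.ord x) (hy : 0 ≤ v.ord y) : 0 ≤ v.ord (x + y) := by
  have := (v.vs).add_mem x y hx hy
  exact this

theorem ord_mul_nonneg {x y : K} (hx : 0 ≤ v.ord x) (hy : 0 ≤ v.ord y) : 0 ≤ v.ord (x * y) := by
  have := (v.vs).mul_mem x y hx hy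
  exact this

theorem red_sub {x y : K} (hx : 0 ≤ v.ord x) (hy : 0 ≤ v.ord y) :
    v.red (x - y) = v.red x - v.red y := by
  rw [red_of_nonneg v hx, red_of_nonneg v hy, red_of_nonneg v (ord_sub_nonneg v hx hy), ← map_sub]
  rfl

theorem red_add {x y : K} (hx : 0 ≤ v.ord x) (hy : 0 ≤ v.ord y) :
    v.red (x + y) = v.red x + v.red y := by
  rw [red_of_nonneg v hx, red_of_nonneg v hy, red_of_nonneg v (ord_add_nonneg v hx hy), ← map_add]
  rfl

theorem red_mul {x y : K} (hx : 0 ≤ v.ord x) (hy : 0 ≤ v.ord y) :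
    v.red (x * y) = v.red x * v.red y := by
  rw [red_of_nonneg v hx, red_of_nonneg v hy, red_of_nonneg v (ord_mul_nonneg v hx hy), ← map_mul]
  rfl

theorem red_algebraMap (c : k) : v.red (algebraMap k K c) = algebraMap k v.Res c := by
  rw [red_of_nonneg v (le_of_eq (v.ord_base c).symm)]
  rfl

end api

open IsDedekindDomain WithZero

/-- the discrete valuation of a prime of a Dedekind domain -/
noncomputable def adic (k A K : Type) [Field k] [CommRing A] [IsDomain A] [IsDedekindDomain A]
    [Field K] [Algebra A K] [IsFractionRing A K] [Algebra k A] [Algebra k K] [IsScalarTower k A K]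
    (P : HeightOneSpectrum A) : DV k K where
  ord x := - log (P.valuation K x)
  ord_zero := by simp
  ord_mul := by
    intro x y hx hy
    rw [map_mul, log_mul (by simpa using hx) (by simpa using hy)]
    ring
  ord_add := by
    intro x y hx hy hxy
    have hx' : P.valuation K x ≠ 0 := by simpa using hx
    have hy' : P.valuation K y ≠ 0 := by simpa using hy
    have hxy' : P.valuation K (x + y) ≠ 0 := by simpa using hxy
    rcases Valuation.map_add' (P.valuation K) x y with h | h
    · refine (min_le_left _ _).trans ?_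
      rw [neg_le_neg_iff, log_le_log hxy' hx']; exact h
    · refine (min_le_right _ _).trans ?_
      rw [neg_le_neg_iff, log_le_log hxy' hy']; exact h
  ord_base := by
    intro c
    by_cases hc : c = 0
    · simp [hc]
    · have h1 : P.valuation K (algebraMap k K c) = 1 := by
        rw [IsScalarTower.algebraMap_apply k A K, HeightOneSpectrum.valuation_eq_one_iff_notMem]
        intro hmem
        have hu : IsUnit (algebraMap k A c) := (isUnit_iff_ne_zero.2 hc).map _
        exact P.isPrime.ne_top (Ideal.eq_top_of_isUnit_mem _ hmem hu)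
      rw [h1]; simp
  ord_surj := by
    obtain ⟨π, hπ⟩ := P.valuation_exists_uniformizer K
    refine ⟨π, ?_, ?_⟩
    · rintro rfl
      rw [map_zero] at hπ
      exact exp_ne_zero hπ.symm
    · rw [hπ]; simp

theorem adic_ord {k A K : Type} [Field k] [CommRing A] [IsDomain A] [IsDedekindDomain A]
    [Field K] [Algebra A K] [IsFractionRing A K] [Algebra k A] [Algebra k K] [IsScalarTower k A K]
    (P : HeightOneSpectrum A) (x : K) : (adic k A K P).ord x = - log (P.valuation K x) := rfl

theorem v4 : T_V4 := by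
  intro k A K _ _ _ _ _ _ _ _ _ _ p hp hpb
  obtain ⟨P, hP⟩ : ∃ P : HeightOneSpectrum A, P.asIdeal = p := ⟨⟨p, hp, hpb⟩, rfl⟩
  refine ⟨adic k A K P, ?_, ?_⟩
  · intro a n ha
    have ha' : algebraMap A K a ≠ 0 := by
      simpa using ha
    have hv : P.valuation K (algebraMap A K a) ≠ 0 := by simpa using ha
    rw [adic_ord, le_neg, log_le_iff_le_exp hv, P.valuation_of_algebraMap,
      P.intValuation_le_pow_iff_mem, hP]
  · intro y
    obtain ⟨x, hx, rfl⟩ := red_surj _ y
    have hx1 : P.valuation K x ≤ 1 := by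
      by_cases h0 : P.valuation K x = 0
      · rw [h0]; exact zero_le_one
      · rw [adic_ord, le_neg, neg_zero, log_le_iff_le_exp h0, exp_zero] at hx
        exact hx
    obtain ⟨a, ha⟩ := P.exists_valuation_sub_lt_of_integer hx1 1
    refine ⟨a, ?_⟩
    have ha0 : 0 ≤ (adic k A K P).ord (algebraMap A K a) := by
      by_cases h0 : algebraMap A K a = 0
      · rw [h0, (adic k A K P).ord_zero]
      · have hv : P.valuation K (algebraMap A K a) ≠ 0 := by simpa using h0
        rw [adic_ord, le_neg, neg_zero, log_le_iff_le_exp hv, exp_zero]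
        exact P.valuation_le_one a
    rw [← sub_eq_zero, ← red_sub _ ha0 hx, red_eq_zero _ (ord_sub_nonneg _ ha0 hx)]
    by_cases h0 : algebraMap A K a - x = 0
    · exact Or.inl h0
    · right
      have hv : P.valuation K (algebraMap A K a - x) ≠ 0 := by simpa using h0
      rw [adic_ord, neg_pos, log_lt_iff_lt_exp hv, exp_zero]
      simpa using ha

section center

variable {k A K : Type} [Field k] [CommRing A] [IsDedekindDomain A]
  [Field K] [Algebra A K] [IsFractionRing A K] [Algebra k K] (v : DV k K)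

/-- the map to the valuation ring -/
def toVs (hA : ∀ a : A, 0 ≤ v.ord (algebraMap A K a)) : A →+* v.vs where
  toFun a := ⟨algebraMap A K a, hA a⟩
  map_one' := by ext; simp
  map_mul' := by intro a b; ext; simp
  map_zero' := by ext; simp
  map_add' := by intro a b; ext; simp

/-- the center -/
def center (hA : ∀ a : A, 0 ≤ v.ord (algebraMap A K a)) : Ideal A :=
  Ideal.comap (toVs v hA) (IsLocalRing.maximalIdeal v.vs)

theorem center_prime (hA : ∀ a : A, 0 ≤ v.ord (algebraMap A K a)) : (center v hA).IsPrime :=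
  Ideal.comap_isPrime _ _

theorem mem_center (hA : ∀ a : A, 0 ≤ v.ord (algebraMap A K a)) (a : A) :
    a ∈ center v hA ↔ a = 0 ∨ 0 < v.ord (algebraMap A K a) := by
  unfold center
  rw [Ideal.mem_comap, IsLocalRing.mem_maximalIdeal, mem_nonunits_iff]
  have h := isUnit_vs v (hA a)
  have h' : (toVs v hA a) = ⟨algebraMap A K a, hA a⟩ := rfl
  rw [h', h]
  by_cases h0 : a = 0
  · simp [h0]
  · have h1 : algebraMap A K a ≠ 0 := by simpa using h0
    have := hA a
    simp only [ne_eq, h1, not_false_iff, true_and, h0, false_or]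
    constructor
    · intro h2; exact lt_of_le_of_ne this (Ne.symm h2)
    · intro h2; exact h2.ne'

theorem center_ne_bot (hA : ∀ a : A, 0 ≤ v.ord (algebraMap A K a)) : center v hA ≠ ⊥ := by
  intro hbot
  have hz : ∀ a : A, a ≠ 0 → v.ord (algebraMap A K a) = 0 := by
    intro a ha
    by_contra hne
    have h1 : a ∈ center v hA := (mem_center v hA a).2 (Or.inr (lt_of_le_of_ne (hA a) (Ne.symm hne)))
    rw [hbot, Ideal.mem_bot] at h1
    exact ha h1
  obtain ⟨x, hx, hx1⟩ := v.ord_surj
  obtain ⟨a, b, hb, rfl⟩ := IsFractionRing.div_surjective (A := A) x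
  have hb0 : b ≠ 0 := nonZeroDivisors.ne_zero hb
  have ha0 : a ≠ 0 := by
    rintro rfl
    simp at hx
  have ha1 : algebraMap A K a ≠ 0 := by simpa using ha0
  have hb1 : algebraMap A K b ≠ 0 := by simpa using hb0
  rw [div_eq_mul_inv, v.ord_mul _ _ ha1 (inv_ne_zero hb1), v.ord_inv, hz a ha0, hz b hb0] at hx1
  omega

theorem ord_zpow {x : K} (hx : x ≠ 0) (n : ℤ) : v.ord (x ^ n) = n * v.ord x := by
  have hn : ∀ m : ℕ, v.ord (x ^ m) = m * v.ord x := by
    intro m
    induction m with
    | zero => simp [v.ord_one]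
    | succ m ih =>
      rw [pow_succ, v.ord_mul _ _ (pow_ne_zero m hx) hx, ih]
      push_cast
      ring
  obtain ⟨m, rfl | rfl⟩ := n.eq_nat_or_neg
  · rw [zpow_natCast, hn]
  · rw [zpow_neg, zpow_natCast, v.ord_inv, hn]
    ring

theorem ord_eq_of_center (hA : ∀ a : A, 0 ≤ v.ord (algebraMap A K a)) (P : HeightOneSpectrum A)
    (hP : ∀ a, a ∉ P.asIdeal → v.ord (algebraMap A K a) = 0) (x : K) :
    v.ord x = - log (P.valuation K x) := by
  obtain ⟨π, hπ⟩ := P.valuation_exists_uniformizer' K
  change P.valuation K (algebraMap A K π) = exp (-1) at hπ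
  have hπ0 : algebraMap A K π ≠ 0 := by
    intro h
    rw [h, map_zero] at hπ
    exact exp_ne_zero hπ.symm
  have hunit : ∀ y : K, P.valuation K y = 1 → v.ord y = 0 := by
    intro y hy
    obtain ⟨m, d, hd⟩ := P.exists_primeCompl_mul_eq_of_integer y hy.le
    have hdP : (d : A) ∉ P.asIdeal := d.2
    have hd1 : P.valuation K (algebraMap A K d) = 1 := P.valuation_eq_one_iff_notMem.2 hdP
    have hm1 : P.valuation K (algebraMap A K m) = 1 := by rw [← hd, map_mul, hy, hd1, one_mul]
    have hmP : m ∉ P.asIdeal := P.valuation_eq_one_iff_notMem.1 hm1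
    have hy0 : y ≠ 0 := by
      rintro rfl
      simp at hy
    have hd0 : algebraMap A K (d : A) ≠ 0 := by
      intro h
      rw [h, map_zero] at hd1
      exact zero_ne_one hd1
    have h1 := v.ord_mul y _ hy0 hd0
    rw [hd, hP m hmP, hP d hdP] at h1
    omega
  have hgen : ∀ y : K, y ≠ 0 → v.ord y = - log (P.valuation K y) * v.ord (algebraMap A K π) := by
    intro y hy
    obtain ⟨N, hN⟩ : ∃ N, N = log (P.valuation K y) := ⟨_, rfl⟩
    have hyv : P.valuation K y ≠ 0 := by simpa using hy
    have h1 : P.valuation K (y * (algebraMap A K π) ^ N) = 1 := by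
      rw [map_mul, map_zpow₀, hπ, ← exp_log hyv, ← hN, ← exp_zsmul, ← exp_add]
      simp
    have h2 := hunit _ h1
    rw [v.ord_mul _ _ hy (zpow_ne_zero _ hπ0), ord_zpow v hπ0] at h2
    rw [← hN]
    linarith
  by_cases hx : x = 0
  · rw [hx, v.ord_zero]; simp
  · obtain ⟨z, hz, hz1⟩ := v.ord_surj
    have h1 := hgen z hz
    rw [hz1] at h1
    have h2 : v.ord (algebraMap A K π) ∣ 1 := ⟨- log (P.valuation K z), by rw [mul_comm]; exact h1⟩
    have h3 : v.ord (algebraMap A K π) = 1 := Int.eq_one_of_dvd_one (hA π) h2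
    rw [hgen x hx, h3, mul_one]

end center

theorem v4u : T_V4u := by
  intro k k' A K _ _ _ _ _ _ _ _ _ _ v w hv hw hvw
  obtain ⟨P, hP⟩ : ∃ P : HeightOneSpectrum A, P.asIdeal = center v hv :=
    ⟨⟨center v hv, center_prime v hv, center_ne_bot v hv⟩, rfl⟩
  have hle : center v hv ≤ center w hw := by
    intro a ha
    rw [mem_center] at ha ⊢
    rcases ha with h | h
    · exact Or.inl h
    · exact Or.inr (hvw a h)
  have hmax : (center v hv).IsMaximal := by
    have := center_prime v hv
    exact this.isMaximal (center_ne_bot v hv)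
  have heq : center v hv = center w hw := hmax.eq_of_le (center_prime w hw).ne_top hle
  funext x
  rw [ord_eq_of_center v hv P, ord_eq_of_center w hw P]
  · intro a ha
    rw [hP, heq, mem_center] at ha
    push Not at ha
    exact le_antisymm ha.2 (hw a)
  · intro a ha
    rw [hP, mem_center] at ha
    push Not at ha
    exact le_antisymm ha.2 (hv a)

end Pool.Agent.H76.KN
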